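import Pool.Agent.H18.QGR.Stmts

/-!
Row PHB of the board qgr.
-/

set_option autoImplicit false

namespace Pool.QGR

open Pool.CGR

namespace PHB

variable {m : ℕ} (q : Fin m → Fin m → ℝ)

theorem Ph_single (w : List (Fin m)) (r : ℂ) : Ph q (Finsupp.single w r) = r • Fk q w :=
  Finsupp.linearCombination_single _ _ _

theorem Ph_cn (i : Fin m) (f : E m) : Ph q (cn i f) = X q i (Ph q f) := by
  induction f using Finsupp.induction_linear with
  | zero => simp
  | add f g hf hg => rw [map_add, map_add, map_add, map_add, hf, hg]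
  | single w r =>
    have h1 : cn i (Finsupp.single w r : E m) = Finsupp.single (i :: w) r :=
      Finsupp.mapDomain_single
    rw [h1, Ph_single, Ph_single, map_smul]
    rfl

theorem Ph_sn (hF : FKRStmt) (hs : ∀ i j, q i j = q j i) (i : Fin m) (f : E m) :
    Ph q (sn i f) = Xr q i (Ph q f) := by
  induction f using Finsupp.induction_linear with
  | zero => simp
  | add f g hf hg => rw [map_add, map_add, map_add, map_add, hf, hg]
  | single w r =>
    have h1 : sn i (Finsupp.single w r : E m) = Finsupp.single (w ++ [i]) r :=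
      Finsupp.mapDomain_single
    rw [h1, Ph_single, Ph_single, map_smul, hF m q hs]

/-- the annihilation part vanishes on long words -/
theorem X_apply (i : Fin m) (w v : List (Fin m)) (N : ℕ) (hw : w.length ≤ N)
    (hv : N ≤ v.length) : (X q i (Finsupp.single w 1)) v = (Finsupp.single (i :: w) (1 : ℂ)) v := by
  have h1 : cn i (Finsupp.single w (1 : ℂ) : E m) = Finsupp.single (i :: w) 1 :=
    Finsupp.mapDomain_single
  have h2 : (an q i (Finsupp.single w 1)) v = 0 := by
    have h3 : an q i (Finsupp.single w 1) = ∑ k ∈ Finset.range w.length,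
        if w[k]? = some i then Finsupp.single (w.eraseIdx k) (om q i (w.take k)) else 0 := by
      unfold an
      rw [Finsupp.linearCombination_single, one_smul]
    rw [h3, Finsupp.finsetSum_apply]
    apply Finset.sum_eq_zero
    intro k hk
    have hk' := Finset.mem_range.1 hk
    split_ifs
    · apply Finsupp.single_eq_of_ne
      intro h
      have h4 : (w.eraseIdx k).length = w.length - 1 := List.length_eraseIdx_of_lt hk'
      rw [← h] at h4
      omega
    · rfl
  show (cn i (Finsupp.single w 1) + an q i (Finsupp.single w 1)) v = _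
  rw [Finsupp.add_apply, h1, h2, add_zero]

theorem Xr_apply (i : Fin m) (w v : List (Fin m)) (N : ℕ) (hw : w.length ≤ N)
    (hv : N ≤ v.length) :
    (Xr q i (Finsupp.single w 1)) v = (Finsupp.single (w ++ [i]) (1 : ℂ)) v := by
  have h1 : sn i (Finsupp.single w (1 : ℂ) : E m) = Finsupp.single (w ++ [i]) 1 :=
    Finsupp.mapDomain_single
  have h2 : (ar q i (Finsupp.single w 1)) v = 0 := by
    have h3 : ar q i (Finsupp.single w 1) = ∑ k ∈ Finset.range w.length,
        if w[k]? = some i then Finsupp.single (w.eraseIdx k) (om q i (w.drop (k + 1))) else 0 := by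
      unfold ar
      rw [Finsupp.linearCombination_single, one_smul]
    rw [h3, Finsupp.finsetSum_apply]
    apply Finset.sum_eq_zero
    intro k hk
    have hk' := Finset.mem_range.1 hk
    split_ifs
    · apply Finsupp.single_eq_of_ne
      intro h
      have h4 : (w.eraseIdx k).length = w.length - 1 := List.length_eraseIdx_of_lt hk'
      rw [← h] at h4
      omega
    · rfl
  show (sn i (Finsupp.single w 1) + ar q i (Finsupp.single w 1)) v = _
  rw [Finsupp.add_apply, h1, h2, add_zero]

/-- the value of `Ph G` on a long word -/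
theorem value (hW : WKFStmt) (hF : FKRStmt) (hs : ∀ i j, q i j = q j i)
    (j : Fin m → List (Fin m) → ℂ) (N : ℕ) (v : List (Fin m)) (hv : N ≤ v.length) :
    Ph q (gg (pN q j N)) v =
      (∑ i, ∑ w ∈ wds m (N + 1), j i w * (Finsupp.single (i :: w) (1 : ℂ)) v) -
      ∑ i, ∑ w ∈ wds m (N + 1), j i w * (Finsupp.single (w ++ [i]) (1 : ℂ)) v := by
  have h1 : ∀ i, cn i (pN q j N i) = ∑ w ∈ wds m (N + 1), j i w • cn i (Wk q w) := by
    intro i
    unfold pN
    rw [map_sum]
    exact Finset.sum_congr rfl (fun w _ => map_smul _ _ _)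
  have h2 : ∀ i, sn i (pN q j N i) = ∑ w ∈ wds m (N + 1), j i w • sn i (Wk q w) := by
    intro i
    unfold pN
    rw [map_sum]
    exact Finset.sum_congr rfl (fun w _ => map_smul _ _ _)
  unfold gg
  rw [map_sum, Finsupp.finsetSum_apply, ← Finset.sum_sub_distrib]
  apply Finset.sum_congr rfl
  intro i _
  rw [map_sub, Finsupp.sub_apply, h1 i, h2 i, map_sum, map_sum, Finsupp.finsetSum_apply,
    Finsupp.finsetSum_apply]
  congr 1
  · apply Finset.sum_congr rfl
    intro w hw
    have hw' := mem_wds.1 hw
    rw [map_smul, Ph_cn, hW m q w, Finsupp.smul_apply, smul_eq_mul,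
      X_apply q i w v N (by omega) hv]
  · apply Finset.sum_congr rfl
    intro w hw
    have hw' := mem_wds.1 hw
    rw [map_smul, Ph_sn q hF hs, hW m q w, Finsupp.smul_apply, smul_eq_mul,
      Xr_apply q i w v N (by omega) hv]

theorem tr_mono {a b : ℕ} (h : a ≤ b) : tr a ≤ tr b := by
  unfold tr
  exact Nat.div_le_div_right (Nat.mul_le_mul h (by omega))

/-- one of the two sums -/
theorem sum_le (g : Fin m → List (Fin m) → List (Fin m))
    (hg : ∀ i w i' w', g i w = g i' w' → i = i' ∧ w = w')
    (hl : ∀ i w, (g i w).length = w.length + 1)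
    (j : Fin m → List (Fin m) → ℂ) (N : ℕ) (v : List (Fin m)) (B : ℝ) (hB0 : 0 ≤ B)
    (hB : ∀ i w, w.length + 1 = v.length → w.length < N + 1 → ‖j i w‖ ≤ B) :
    ‖∑ i, ∑ w ∈ wds m (N + 1), j i w * (Finsupp.single (g i w) (1 : ℂ)) v‖ ≤ B := by
  classical
  by_cases hex : ∃ i w, w ∈ wds m (N + 1) ∧ g i w = v
  · obtain ⟨i, w, hw, hgv⟩ := hex
    rw [Finset.sum_eq_single i, Finset.sum_eq_single w]
    · rw [hgv, Finsupp.single_eq_same, mul_one]
      apply hB i w
      · rw [← hgv, hl]
      · exact mem_wds.1 hw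
    · intro w' _ hne
      rw [Finsupp.single_eq_of_ne, mul_zero]
      intro h
      exact hne ((hg i w' i w (h.symm.trans hgv.symm)).2)
    · intro h
      exact absurd hw h
    · intro i' _ hne
      apply Finset.sum_eq_zero
      intro w' _
      rw [Finsupp.single_eq_of_ne, mul_zero]
      intro h
      exact hne ((hg i' w' i w (h.symm.trans hgv.symm)).1)
    · intro h
      exact absurd (Finset.mem_univ i) h
  · have h0 : ∑ i, ∑ w ∈ wds m (N + 1), j i w * (Finsupp.single (g i w) (1 : ℂ)) v = 0 := by
      apply Finset.sum_eq_zero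
      intro i _
      apply Finset.sum_eq_zero
      intro w hw
      rw [Finsupp.single_eq_of_ne, mul_zero]
      intro h
      exact hex ⟨i, w, hw, h.symm⟩
    rw [h0, norm_zero]
    exact hB0

end PHB

theorem phb_thm (hW : WKFStmt) (hF : FKRStmt) : PHBStmt := by
  intro m q Q hQ C hC j hj N v
  have hg1 : ∀ (i : Fin m) (w : List (Fin m)) (i' : Fin m) (w' : List (Fin m)),
      i :: w = i' :: w' → i = i' ∧ w = w' := fun i w i' w' h => List.cons.inj h
  have hg2 : ∀ (i : Fin m) (w : List (Fin m)) (i' : Fin m) (w' : List (Fin m)),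
      w ++ [i] = w' ++ [i'] → i = i' ∧ w = w' := by
    intro i w i' w' h
    obtain ⟨h1, h2⟩ := List.append_inj' h rfl
    exact ⟨(List.cons.inj h2).1, h1⟩
  have hl1 : ∀ (i : Fin m) (w : List (Fin m)), (i :: w).length = w.length + 1 :=
    fun i w => List.length_cons
  have hl2 : ∀ (i : Fin m) (w : List (Fin m)), (w ++ [i]).length = w.length + 1 := by
    intro i w
    rw [List.length_append]
    rfl
  constructor
  · intro hv
    rw [PHB.value q hW hF hQ.symm j N v (by omega)]
    have e1 := PHB.sum_le (fun (i : Fin m) (w : List (Fin m)) => i :: w) hg1 hl1 j N v 0 le_rfl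
      (by intro i w h1 h2; omega)
    have e2 := PHB.sum_le (fun (i : Fin m) (w : List (Fin m)) => w ++ [i]) hg2 hl2 j N v 0 le_rfl
      (by intro i w h1 h2; omega)
    rw [norm_le_zero_iff.1 e1, norm_le_zero_iff.1 e2, sub_zero]
  · intro hv
    rw [PHB.value q hW hF hQ.symm j N v hv]
    have hC0 : 0 ≤ C := by linarith
    have hQ1 : Q ≤ 1 := hQ.lt.le
    have hB0 : 0 ≤ C ^ N * Q ^ tr ((N - 1) / 2) :=
      mul_nonneg (pow_nonneg hC0 _) (pow_nonneg hQ.nonneg _)
    have hB : ∀ (i : Fin m) (w : List (Fin m)), w.length + 1 = v.length → w.length < N + 1 →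
        ‖j i w‖ ≤ C ^ N * Q ^ tr ((N - 1) / 2) := by
      intro i w h1 h2
      refine (hj i w).trans ?_
      apply mul_le_mul (pow_le_pow_right₀ hC (by omega)) _ (pow_nonneg hQ.nonneg _)
        (pow_nonneg hC0 _)
      exact pow_le_pow_of_le_one hQ.nonneg hQ1 (PHB.tr_mono (by omega))
    have e1 := PHB.sum_le (fun (i : Fin m) (w : List (Fin m)) => i :: w) hg1 hl1 j N v _ hB0 hB
    have e2 := PHB.sum_le (fun (i : Fin m) (w : List (Fin m)) => w ++ [i]) hg2 hl2 j N v _ hB0 hB
    refine (norm_sub_le _ _).trans ?_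
    linarith

end Pool.QGR
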