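import Pool.Agent.H18.QGR.Stmts

/-!
Row WKN of the board qgr.
-/

set_option autoImplicit false

namespace Pool.QGR

open Pool.CGR

namespace WKN

theorem l1_eq {m : ℕ} (f : E m) (S : Finset (List (Fin m))) (h : f.support ⊆ S) :
    l1 f = ∑ w ∈ S, ‖f w‖ := by
  unfold l1
  exact Finsupp.sum_of_support_subset f h _ (fun _ _ => norm_zero)

theorem l1_zero {m : ℕ} : l1 (0 : E m) = 0 := Finsupp.sum_zero_index

theorem l1_add_le {m : ℕ} (f g : E m) : l1 (f + g) ≤ l1 f + l1 g := by
  classical
  rw [l1_eq (f + g) (f.support ∪ g.support) Finsupp.support_add,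
    l1_eq f (f.support ∪ g.support) Finset.subset_union_left,
    l1_eq g (f.support ∪ g.support) Finset.subset_union_right, ← Finset.sum_add_distrib]
  apply Finset.sum_le_sum
  intro w _
  rw [Finsupp.add_apply]
  exact norm_add_le _ _

theorem l1_neg {m : ℕ} (f : E m) : l1 (-f) = l1 f := by
  rw [l1_eq (-f) f.support (by rw [Finsupp.support_neg]), l1_eq f f.support le_rfl]
  apply Finset.sum_congr rfl
  intro w _
  rw [Finsupp.neg_apply, norm_neg]

theorem l1_smul {m : ℕ} (c : ℂ) (f : E m) : l1 (c • f) = ‖c‖ * l1 f := by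
  rw [l1_eq (c • f) f.support Finsupp.support_smul, l1_eq f f.support le_rfl, Finset.mul_sum]
  apply Finset.sum_congr rfl
  intro w _
  rw [Finsupp.smul_apply, smul_eq_mul, norm_mul]

theorem l1_sum_le {m : ℕ} {ι : Type} (s : Finset ι) (f : ι → E m) :
    l1 (∑ i ∈ s, f i) ≤ ∑ i ∈ s, l1 (f i) := by
  classical
  induction s using Finset.induction_on with
  | empty => rw [Finset.sum_empty, Finset.sum_empty, l1_zero]
  | insert a s ha ih =>
    rw [Finset.sum_insert ha, Finset.sum_insert ha]
    exact (l1_add_le _ _).trans (add_le_add le_rfl ih)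

theorem l1_nonneg {m : ℕ} (f : E m) : 0 ≤ l1 f := by
  rw [l1_eq f f.support le_rfl]
  exact Finset.sum_nonneg (fun _ _ => norm_nonneg _)

theorem l1_cn {m : ℕ} (j : Fin m) (f : E m) : l1 (cn j f) = l1 f := by
  show (Finsupp.mapDomain (fun w : List (Fin m) => j :: w) f).sum (fun _ r => ‖r‖) = _
  have hinj : Function.Injective (fun w : List (Fin m) => j :: w) := by
    intro x y hxy
    exact (List.cons.inj hxy).2
  rw [Finsupp.sum_mapDomain_index_inj hinj]
  rfl

theorem om_le {m : ℕ} (q : Fin m → Fin m → ℝ) (Q : ℝ) (h : SQ q Q) (j : Fin m)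
    (u : List (Fin m)) : ‖om q j u‖ ≤ Q ^ u.length := by
  unfold om
  induction u with
  | nil => simp
  | cons a u ih =>
    rw [List.map_cons, List.prod_cons, norm_mul, List.length_cons, pow_succ, mul_comm]
    apply mul_le_mul ih _ (norm_nonneg _) (pow_nonneg h.nonneg _)
    rw [Complex.norm_real, Real.norm_eq_abs]
    exact h.bdd j a

theorem main {m : ℕ} (q : Fin m → Fin m → ℝ) (Q : ℝ) (h : SQ q Q) (n : ℕ) :
    ∀ w : List (Fin m), w.length = n → l1 (Wk q w) ≤ (1 + 1 / (1 - Q)) ^ n := by
  have h1 : 0 < 1 - Q := sub_pos.2 h.lt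
  have hL : (1 : ℝ) ≤ 1 + 1 / (1 - Q) := by
    have : 0 < 1 / (1 - Q) := by positivity
    linarith
  induction n using Nat.strong_induction_on with
  | _ n ih =>
    intro w hw
    cases w with
    | nil =>
      rw [Wk]
      have h2 : l1 (Finsupp.single ([] : List (Fin m)) (1 : ℂ)) = 1 := by
        unfold l1
        exact (Finsupp.sum_single_index (h := fun (_ : List (Fin m)) (r : ℂ) => ‖r‖)
          norm_zero).trans norm_one
      rw [h2]
      exact one_le_pow₀ hL
    | cons j w =>
      rw [List.length_cons] at hw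
      rw [Wk, sub_eq_add_neg]
      have hA : l1 (Wk q w) ≤ (1 + 1 / (1 - Q)) ^ w.length := ih w.length (by omega) w rfl
      have hB : ∀ k ∈ Finset.range w.length, l1 (if w[k]? = some j then
          om q j (w.take k) • Wk q (w.eraseIdx k) else 0) ≤
          Q ^ k * (1 + 1 / (1 - Q)) ^ w.length := by
        intro k hk
        have hk' := Finset.mem_range.1 hk
        have hQk : 0 ≤ Q ^ k := pow_nonneg h.nonneg _
        have hLp : 0 ≤ (1 + 1 / (1 - Q)) ^ w.length := pow_nonneg (by linarith) _
        split_ifs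
        · rw [l1_smul]
          have h3 : ‖om q j (w.take k)‖ ≤ Q ^ k := by
            have := om_le q Q h j (w.take k)
            rwa [List.length_take, min_eq_left hk'.le] at this
          have h4 : (w.eraseIdx k).length = w.length - 1 := List.length_eraseIdx_of_lt hk'
          have h5 : l1 (Wk q (w.eraseIdx k)) ≤ (1 + 1 / (1 - Q)) ^ w.length := by
            have h6 := ih (w.eraseIdx k).length (by omega) (w.eraseIdx k) rfl
            exact h6.trans (pow_le_pow_right₀ hL (by omega))
          exact mul_le_mul h3 h5 (l1_nonneg _) hQk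
        · rw [l1_zero]
          positivity
      have hC : l1 (∑ k ∈ Finset.range w.length, if w[k]? = some j then
          om q j (w.take k) • Wk q (w.eraseIdx k) else 0) ≤
          (1 / (1 - Q)) * (1 + 1 / (1 - Q)) ^ w.length := by
        refine (l1_sum_le _ _).trans ((Finset.sum_le_sum hB).trans ?_)
        rw [← Finset.sum_mul]
        apply mul_le_mul_of_nonneg_right _ (pow_nonneg (by linarith) _)
        rw [le_div_iff₀ h1, mul_comm, mul_neg_geom_sum]
        have : 0 ≤ Q ^ w.length := pow_nonneg h.nonneg _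
        linarith
      refine (l1_add_le _ _).trans ?_
      rw [l1_neg, l1_cn, ← hw, pow_succ]
      linarith

end WKN

theorem wkn_thm : WKNStmt := fun _ q Q h w => WKN.main q Q h w.length w rfl

end Pool.QGR
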