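import Pool.Agent.H18.QGR.Stmts

/-!
Row WKS of the board qgr.
-/

set_option autoImplicit false

namespace Pool.QGR

open Pool.CGR

private theorem wks_aux (m : ℕ) (q : Fin m → Fin m → ℝ) (n : ℕ) :
    ∀ w : List (Fin m), w.length = n → ∀ u : List (Fin m), w.length < u.length →
      Wk q w u = 0 := by
  induction n using Nat.strong_induction_on with
  | _ n ih =>
    intro w hw u hu
    cases w with
    | nil =>
      rw [Wk]
      apply Finsupp.single_eq_of_ne
      intro h
      rw [h] at hu
      simp at hu
    | cons j w =>
      rw [List.length_cons] at hw hu
      rw [Wk, Finsupp.sub_apply, Finsupp.finset_sum_apply]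
      have h1 : (cn j (Wk q w)) u = 0 := by
        show Finsupp.mapDomain (fun w : List (Fin m) => j :: w) (Wk q w) u = 0
        by_cases hr : u ∈ Set.range (fun w : List (Fin m) => j :: w)
        · obtain ⟨u', rfl⟩ := hr
          have hinj : Function.Injective (fun w : List (Fin m) => j :: w) := by
            intro x y hxy
            exact (List.cons.inj hxy).2
          rw [Finsupp.mapDomain_apply hinj]
          exact ih w.length (by omega) w rfl u' (by
            simp only [List.length_cons] at hu
            omega)
        · exact Finsupp.mapDomain_notin_range _ _ hr
      rw [h1, zero_sub, neg_eq_zero]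
      apply Finset.sum_eq_zero
      intro k _
      split_ifs
      · rw [Finsupp.smul_apply]
        have h2 := List.length_eraseIdx_le w k
        rw [ih (w.eraseIdx k).length (by omega) _ rfl u (by omega), smul_zero]
      · rfl

theorem wks_thm : WKSStmt := fun m q w u h => wks_aux m q w.length w rfl u h

end Pool.QGR
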